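import Mathlib

/-!
# An `s`-complete regular Hausdorff topological semilattice which is not absolutely `H`-closed
-/

open Set Filter Topology

namespace Pool.Agent.Results.MP_3bb15c_gt.NotAbsolutelyClosed

universe u v

/-! ## Definitions -/

section Defs

variable (X : Type u) [TopologicalSpace X] [Mul X]

/-- Topological semilattices. -/
def IsTopSemilattice : Prop :=
  Continuous (fun p : X × X => p.1 * p.2) ∧ (∀ x y z : X, x * y * z = x * (y * z)) ∧
    (∀ x y : X, x * y = y * x) ∧ ∀ x : X, x * x = x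

variable {X}

/-- `m` is the infimum of `A` in the natural order `x ≤ y ↔ x * y = x`. -/
def IsInf (A : Set X) (m : X) : Prop :=
  (∀ a ∈ A, m * a = m) ∧ ∀ b, (∀ a ∈ A, b * a = b) → b * m = b

/-- `m` is the supremum of `A` in the natural order. -/
def IsSup (A : Set X) (m : X) : Prop :=
  (∀ a ∈ A, a * m = a) ∧ ∀ b, (∀ a ∈ A, a * b = a) → m * b = m

/-- The upper set `↑A`. -/
def up (A : Set X) : Set X := {x | ∃ a ∈ A, a * x = a}

/-- The lower set `↓A`. -/
def down (A : Set X) : Set X := {x | ∃ a ∈ A, x * a = x}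

/-- Chains. -/
def IsChn (C : Set X) : Prop := ∀ x ∈ C, ∀ y ∈ C, x * y = x ∨ x * y = y

/-- Subsemilattices. -/
def IsSub (S : Set X) : Prop := ∀ x ∈ S, ∀ y ∈ S, x * y ∈ S

variable (X)

/-- `s`-completeness. -/
def SComplete : Prop :=
  (∀ S : Set X, S.Nonempty → IsSub S → ∃ m, IsInf S m ∧ m ∈ closure (up S)) ∧
    ∀ C : Set X, C.Nonempty → IsChn C → ∃ m, IsSup C m ∧ m ∈ closure (down C)

/-- Absolute `H`-closedness (tested on topological semigroups in the universe `v`). -/
def AbsolutelyHClosed : Prop :=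
  ∀ (Y : Type v) [TopologicalSpace Y] [T2Space Y] [Semigroup Y] [ContinuousMul Y] (h : X → Y),
    Continuous h → (∀ x y, h (x * y) = h x * h y) → IsClosed (range h)

end Defs

/-! ## Topologies given by countable bases of neighbourhoods -/

/-- A system of neighbourhoods. -/
structure Base (X : Type u) where
  /-- the neighbourhoods -/
  B : X → ℕ → Set X
  mem : ∀ p N, p ∈ B p N
  anti : ∀ p M N, M ≤ N → B p N ⊆ B p M
  op : ∀ p N q, q ∈ B p N → ∃ N', B q N' ⊆ B p N

/-- The topology given by a system of neighbourhoods. -/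
@[instance_reducible]
def Base.top {X : Type u} (b : Base X) : TopologicalSpace X where
  IsOpen U := ∀ p ∈ U, ∃ N, b.B p N ⊆ U
  isOpen_univ := fun _ _ => ⟨0, subset_univ _⟩
  isOpen_inter := by
    rintro U V hU hV p ⟨hpU, hpV⟩
    obtain ⟨N, hN⟩ := hU p hpU
    obtain ⟨M, hM⟩ := hV p hpV
    exact ⟨max N M, subset_inter ((b.anti p _ _ (le_max_left _ _)).trans hN)
      ((b.anti p _ _ (le_max_right _ _)).trans hM)⟩
  isOpen_sUnion := by
    rintro S hS p ⟨U, hU, hp⟩
    obtain ⟨N, hN⟩ := hS U hU p hp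
    exact ⟨N, hN.trans (subset_sUnion_of_mem hU)⟩

theorem Base.isOpen_B {X : Type u} (b : Base X) (p : X) (N : ℕ) : @IsOpen X b.top (b.B p N) :=
  fun q hq => b.op p N q hq

theorem Base.mem_nhds {X : Type u} (b : Base X) (p : X) (U : Set X) :
    U ∈ @nhds X b.top p ↔ ∃ N, b.B p N ⊆ U := by
  let t := b.top
  rw [mem_nhds_iff]
  constructor
  · rintro ⟨V, hVU, hV, hp⟩
    obtain ⟨N, hN⟩ := hV p hp
    exact ⟨N, hN.trans hVU⟩
  · rintro ⟨N, hN⟩
    exact ⟨_, hN, b.isOpen_B p N, b.mem p N⟩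

theorem Base.continuous_mul {X : Type u} [Mul X] (b : Base X)
    (h : ∀ (p q : X) (M : ℕ), ∃ N, ∀ p' ∈ b.B p N, ∀ q' ∈ b.B q N, p' * q' ∈ b.B (p * q) M) :
    @ContinuousMul X b.top _ := by
  let t := b.top
  refine ⟨continuous_iff_continuousAt.2 ?_⟩
  rintro ⟨p, q⟩
  intro U hU
  obtain ⟨M, hM⟩ := (b.mem_nhds _ _).1 hU
  obtain ⟨N, hN⟩ := h p q M
  rw [Filter.mem_map, nhds_prod_eq]
  refine Filter.mem_of_superset (Filter.prod_mem_prod ((b.mem_nhds p _).2 ⟨N, Subset.rfl⟩)
    ((b.mem_nhds q _).2 ⟨N, Subset.rfl⟩)) ?_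
  rintro ⟨p', q'⟩ ⟨hp', hq'⟩
  exact hM (hN p' hp' q' hq')

theorem Base.t2 {X : Type u} (b : Base X)
    (h : ∀ p q : X, p ≠ q → ∃ N, Disjoint (b.B p N) (b.B q N)) : @T2Space X b.top := by
  let t := b.top
  refine ⟨fun p q hpq => ?_⟩
  obtain ⟨N, hN⟩ := h p q hpq
  exact ⟨_, _, b.isOpen_B p N, b.isOpen_B q N, b.mem p N, b.mem q N, hN⟩

/-! ## Marks -/

/-- The chain of marks `0 < 1 < 2 < ... < om < ⊤`. -/
abbrev Mark : Type := WithTop (WithTop ℕ)

/-- Finite marks. -/
def c (n : ℕ) : Mark := ((n : WithTop ℕ) : Mark)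

/-- The mark `ω`. -/
def om : Mark := ((⊤ : WithTop ℕ) : Mark)

theorem c_lt_om (n : ℕ) : c n < om := by
  simp only [c, om, WithTop.coe_lt_coe]
  exact WithTop.coe_lt_top n

theorem om_lt_top : om < ⊤ := WithTop.coe_lt_top _

theorem c_lt_c {m n : ℕ} : c m < c n ↔ m < n := by simp [c]

theorem c_le_c {m n : ℕ} : c m ≤ c n ↔ m ≤ n := by simp [c]

theorem cases3 (t : Mark) : (∃ k, t = c k) ∨ t = om ∨ t = ⊤ := by
  induction t using WithTop.recTopCoe with
  | top => exact Or.inr (Or.inr rfl)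
  | coe t =>
    induction t using WithTop.recTopCoe with
    | top => exact Or.inr (Or.inl rfl)
    | coe k => exact Or.inl ⟨k, rfl⟩

theorem lt_om_iff {t : Mark} : t < om ↔ ∃ k, t = c k := by
  constructor
  · intro h
    rcases cases3 t with h1 | h1 | h1
    · exact h1
    · exact absurd h (h1 ▸ lt_irrefl _)
    · exact absurd h (h1 ▸ om_lt_top.not_gt)
  · rintro ⟨k, rfl⟩
    exact c_lt_om k

theorem c_lt_of_c_le {n m : ℕ} {t : Mark} (h : n < m) (ht : c m ≤ t) : c n < t :=
  (c_lt_c.2 h).trans_le ht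

/-! ## The big semilattice -/

/-- The elements: a set `D` of numbers and a mark `t`, with `D ⊆ [0,t)`, and `D` finite if
`t = ⊤`. -/
@[ext]
structure P where
  /-- the set -/
  D : Set ℕ
  /-- the mark -/
  t : Mark
  lt : ∀ n ∈ D, c n < t
  fin : t = ⊤ → D.Finite

instance : Mul P where
  mul p q :=
    { D := {n | (n ∈ p.D ∨ n ∈ q.D) ∧ c n < p.t ∧ c n < q.t}
      t := min p.t q.t
      lt := fun n hn => lt_min hn.2.1 hn.2.2
      fin := by
        intro h
        have h1 : p.t = ⊤ := top_le_iff.1 (h ▸ min_le_left _ _)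
        have h2 : q.t = ⊤ := top_le_iff.1 (h ▸ min_le_right _ _)
        exact ((p.fin h1).union (q.fin h2)).subset fun n hn => hn.1 }

theorem mul_D (p q : P) (n : ℕ) :
    n ∈ (p * q).D ↔ (n ∈ p.D ∨ n ∈ q.D) ∧ c n < p.t ∧ c n < q.t := Iff.rfl

theorem mul_t (p q : P) : (p * q).t = min p.t q.t := rfl

theorem P.mul_comm' (p q : P) : p * q = q * p := by
  apply P.ext
  · ext n
    rw [mul_D, mul_D]
    tauto
  · exact min_comm _ _

theorem P.mul_self' (p : P) : p * p = p := by
  apply P.ext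
  · ext n
    rw [mul_D]
    have := p.lt n
    tauto
  · exact min_self _

theorem P.mul_assoc' (p q r : P) : p * q * r = p * (q * r) := by
  apply P.ext
  · ext n
    simp only [mul_D, mul_t, lt_min_iff]
    tauto
  · exact min_assoc _ _ _

instance : Semigroup P where
  mul_assoc := P.mul_assoc'

/-- The natural order. -/
theorem mul_eq_left {p q : P} : p * q = p ↔ p.t ≤ q.t ∧ ∀ n ∈ q.D, c n < p.t → n ∈ p.D := by
  constructor
  · intro h
    have h1 : min p.t q.t = p.t := congrArg P.t h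
    refine ⟨min_eq_left_iff.1 h1, fun n hn hnt => ?_⟩
    rw [← h, mul_D]
    exact ⟨Or.inr hn, hnt, q.lt n hn⟩
  · rintro ⟨h1, h2⟩
    apply P.ext
    · ext n
      rw [mul_D]
      constructor
      · rintro ⟨h | h, h3, _⟩
        · exact h
        · exact h2 n h h3
      · intro h
        exact ⟨Or.inl h, p.lt n h, (p.lt n h).trans_le h1⟩
    · exact min_eq_left h1

/-- The identity element. -/
def one : P := ⟨∅, ⊤, fun _ h => absurd h (notMem_empty _), fun _ => finite_empty⟩

/-! ### The topology of the big semilattice -/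

/-- Agreement below `N`. -/
def Ag (N : ℕ) (A B : Set ℕ) : Prop := ∀ n < N, n ∈ A ↔ n ∈ B

/-- The neighbourhoods in the big semilattice. -/
def BY (p : P) (N : ℕ) : Set P := {q | Ag N p.D q.D ∧ (p.t = ⊤ → q.t = ⊤) ∧
  (p.t = om → p.D.Infinite → c N ≤ q.t) ∧
  (p.t = om → p.D.Finite → (q.t = om ∧ q.D.Finite) ∨ (c N ≤ q.t ∧ q.t < om)) ∧
  (p.t < om → q = p)}

theorem bY_self (p : P) (N : ℕ) : p ∈ BY p N := by
  refine ⟨fun _ _ => Iff.rfl, fun h => h, fun h _ => ?_, fun h h' => Or.inl ⟨h, h'⟩,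
    fun _ => rfl⟩
  rw [h]
  exact (c_lt_om N).le

theorem bY_anti (p : P) (M N : ℕ) (h : M ≤ N) : BY p N ⊆ BY p M := by
  rintro q ⟨h1, h2, h3, h4, h5⟩
  have hc : c M ≤ c N := c_le_c.2 h
  exact ⟨fun n hn => h1 n (hn.trans_le h), h2, fun a b => hc.trans (h3 a b),
    fun a b => (h4 a b).imp_right fun e => ⟨hc.trans e.1, e.2⟩, h5⟩

theorem om_ne_top : om ≠ ⊤ := om_lt_top.ne

theorem bY_open (p : P) (N : ℕ) (q : P) (hq : q ∈ BY p N) : ∃ N', BY q N' ⊆ BY p N := by
  obtain ⟨h1, h2, h3, h4, h5⟩ := hq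
  rcases cases3 q.t with ⟨k, hk⟩ | hk | hk
  · -- isolated points
    refine ⟨0, fun r hr => ?_⟩
    rw [hr.2.2.2.2 (hk ▸ c_lt_om k)]
    exact ⟨h1, h2, h3, h4, h5⟩
  · refine ⟨N, ?_⟩
    rintro r ⟨g1, g2, g3, g4, g5⟩
    refine ⟨fun n hn => (h1 n hn).trans (g1 n hn), fun a => ?_, fun a b => ?_, fun a b => ?_,
      fun a => ?_⟩
    · exact absurd ((h2 a).symm.trans hk) om_ne_top.symm
    · rcases Set.finite_or_infinite q.D with hf | hf
      · rcases g4 hk hf with e | e
        · rw [e.1]; exact (c_lt_om N).le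
        · exact e.1
      · exact g3 hk hf
    · rcases h4 a b with e | e
      · exact g4 hk e.2
      · exact absurd e.2 (hk ▸ lt_irrefl _)
    · have := h5 a
      rw [this] at hk
      exact absurd a (hk ▸ lt_irrefl _)
  · refine ⟨N, ?_⟩
    rintro r ⟨g1, g2, g3, g4, g5⟩
    have hr := g2 hk
    refine ⟨fun n hn => (h1 n hn).trans (g1 n hn), fun _ => hr, fun a b => ?_, fun a b => ?_,
      fun a => ?_⟩
    · rw [hr]; exact le_top
    · rcases h4 a b with e | e
      · exact absurd (e.1.symm.trans hk) om_ne_top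
      · rw [hk] at e
        exact absurd e.2 om_lt_top.not_gt
    · have := h5 a
      rw [this] at hk
      rw [hk] at a
      exact absurd a om_lt_top.not_gt

/-- The neighbourhood system of the big semilattice. -/
def baseY : Base P := ⟨BY, bY_self, bY_anti, bY_open⟩

instance topP : TopologicalSpace P := baseY.top

theorem isolated_of_lt {p q : P} {N : ℕ} (hp : p.t < om) (hq : q ∈ BY p N) : q = p :=
  hq.2.2.2.2 hp

/-- Multiplication by an element with finite mark is locally constant. -/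
theorem mul_const {p q q' : P} {N : ℕ} {k : ℕ} (hp : p.t = c k) (hN : k < N)
    (hag : Ag N q.D q'.D) (ht : q'.t = q.t ∨ (c N ≤ q'.t ∧ c N ≤ q.t)) : p * q' = p * q := by
  apply P.ext
  · ext n
    rw [mul_D, mul_D, hp]
    constructor
    · rintro ⟨h1, h2, h3⟩
      have hn : n < k := c_lt_c.1 h2
      refine ⟨h1.imp_right (hag n (hn.trans hN)).2, h2, ?_⟩
      rcases ht with ht | ht
      · rwa [← ht]
      · exact c_lt_of_c_le (hn.trans hN) ht.2
    · rintro ⟨h1, h2, h3⟩
      have hn : n < k := c_lt_c.1 h2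
      refine ⟨h1.imp_right (hag n (hn.trans hN)).1, h2, ?_⟩
      rcases ht with ht | ht
      · rwa [ht]
      · exact c_lt_of_c_le (hn.trans hN) ht.1
  · rw [mul_t, mul_t]
    rcases ht with ht | ht
    · rw [ht]
    · rw [hp, min_eq_left (((c_lt_c.2 hN).le).trans ht.1),
        min_eq_left (((c_lt_c.2 hN).le).trans ht.2)]

/-- The marks of the points near `q`. -/
theorem mark_cases {q q' : P} {N : ℕ} (h : q' ∈ BY q N) :
    q'.t = q.t ∨ (c N ≤ q'.t ∧ c N ≤ q.t) := by
  obtain ⟨h1, h2, h3, h4, h5⟩ := h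
  rcases cases3 q.t with ⟨k, hk⟩ | hk | hk
  · left
    rw [h5 (hk ▸ c_lt_om k)]
  · right
    refine ⟨?_, hk ▸ (c_lt_om N).le⟩
    rcases Set.finite_or_infinite q.D with hf | hf
    · rcases h4 hk hf with e | e
      · rw [e.1]; exact (c_lt_om N).le
      · exact e.1
    · exact h3 hk hf
  · left
    rw [h2 hk, hk]

theorem ag_mul {p p' q q' : P} {M N : ℕ} (hMN : M ≤ N) (h1 : Ag N p.D p'.D)
    (h2 : Ag N q.D q'.D) (hp : c N ≤ p.t) (hp' : c N ≤ p'.t) (hq : c N ≤ q.t)
    (hq' : c N ≤ q'.t) : Ag M (p * q).D (p' * q').D := by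
  intro n hn
  have hn' : n < N := hn.trans_le hMN
  rw [mul_D, mul_D, h1 n hn', h2 n hn']
  have a1 := c_lt_of_c_le hn' hp
  have a2 := c_lt_of_c_le hn' hp'
  have a3 := c_lt_of_c_le hn' hq
  have a4 := c_lt_of_c_le hn' hq'
  tauto

theorem mul_D_of_le {p q : P} (hp : om ≤ p.t) (hq : om ≤ q.t) : (p * q).D = p.D ∪ q.D := by
  ext n
  rw [mul_D]
  have := (c_lt_om n).trans_le hp
  have := (c_lt_om n).trans_le hq
  simp only [mem_union]
  tauto

theorem contY (p q : P) (M : ℕ) :
    ∃ N, ∀ p' ∈ BY p N, ∀ q' ∈ BY q N, p' * q' ∈ BY (p * q) M := by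
  rcases cases3 p.t with ⟨k, hk⟩ | hk
  · refine ⟨k + 1, fun p' hp' q' hq' => ?_⟩
    rw [isolated_of_lt (hk ▸ c_lt_om k) hp', mul_const hk (Nat.lt_succ_self k) hq'.1
      (mark_cases hq')]
    exact bY_self _ _
  rcases cases3 q.t with ⟨l, hl⟩ | hl
  · refine ⟨l + 1, fun p' hp' q' hq' => ?_⟩
    rw [isolated_of_lt (hl ▸ c_lt_om l) hq', P.mul_comm' p' q, P.mul_comm' p q,
      mul_const hl (Nat.lt_succ_self l) hp'.1 (mark_cases hp')]
    exact bY_self _ _
  have hpo : om ≤ p.t := by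
    rcases hk with h | h
    · rw [h]
    · rw [h]; exact le_top
  have hqo : om ≤ q.t := by
    rcases hl with h | h
    · rw [h]
    · rw [h]; exact le_top
  refine ⟨M, fun p' hp' q' hq' => ?_⟩
  have hp1 : c M ≤ p'.t := by
    rcases mark_cases hp' with h | h
    · rw [h]; exact (c_lt_om M).le.trans hpo
    · exact h.1
  have hq1 : c M ≤ q'.t := by
    rcases mark_cases hq' with h | h
    · rw [h]; exact (c_lt_om M).le.trans hqo
    · exact h.1
  refine ⟨ag_mul le_rfl hp'.1 hq'.1 ((c_lt_om M).le.trans hpo) hp1 ((c_lt_om M).le.trans hqo) hq1,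
    ?_, ?_, ?_, ?_⟩
  · intro h
    rw [mul_t] at h ⊢
    have h1 : p.t = ⊤ := top_le_iff.1 (h ▸ min_le_left _ _)
    have h2 : q.t = ⊤ := top_le_iff.1 (h ▸ min_le_right _ _)
    rw [hp'.2.1 h1, hq'.2.1 h2, min_self]
  · intro _ _
    exact le_min hp1 hq1
  · intro h hf
    rw [mul_D_of_le hpo hqo, Set.finite_union] at hf
    -- either both factors have finite sets and marks at least `om`, or one mark is finite
    have key : ∀ {a a' : P}, om ≤ a.t → a.D.Finite → (a.t = om ∨ a.t = ⊤) → a' ∈ BY a M →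
        (om ≤ a'.t ∧ a'.D.Finite ∧ (a.t = om → a'.t = om)) ∨ a'.t < om := by
      intro a a' _ haf hat ha'
      rcases hat with hat | hat
      · rcases ha'.2.2.2.1 hat haf with e | e
        · exact Or.inl ⟨e.1.ge, e.2, fun _ => e.1⟩
        · exact Or.inr e.2
      · have h1 := ha'.2.1 hat
        exact Or.inl ⟨h1 ▸ le_top, a'.fin h1, fun h2 => absurd (h2.symm.trans hat) om_ne_top⟩
    rcases key hpo hf.1 hk hp' with e1 | e1
    · rcases key hqo hf.2 hl hq' with e2 | e2
      · left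
        refine ⟨?_, ?_⟩
        · rw [mul_t] at h ⊢
          rcases min_choice p.t q.t with h1 | h1
          · rw [e1.2.2 (h1.symm.trans h)]
            exact min_eq_left e2.1
          · rw [e2.2.2 (h1.symm.trans h)]
            exact min_eq_right e1.1
        · rw [mul_D_of_le e1.1 e2.1]
          exact e1.2.1.union e2.2.1
      · right
        exact ⟨le_min hp1 hq1, (min_le_right _ _).trans_lt e2⟩
    · right
      exact ⟨le_min hp1 hq1, (min_le_left _ _).trans_lt e1⟩
  · intro h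
    exact absurd h (not_lt.2 (le_min hpo hqo))

instance contMulP : ContinuousMul P := baseY.continuous_mul contY

theorem t2Y (p q : P) (hpq : p ≠ q) : ∃ N, Disjoint (BY p N) (BY q N) := by
  -- points with finite marks
  have key : ∀ {a b : P} {k : ℕ}, a.t = c k → a ≠ b → Disjoint (BY a (k + 1)) (BY b (k + 1)) := by
    intro a b k hk hab
    rw [Set.disjoint_left]
    intro r hr hr'
    have h1 : r = a := isolated_of_lt (hk ▸ c_lt_om k) hr
    rcases mark_cases hr' with h2 | h2
    · have h3 : b.t < om := by rw [← h2, h1, hk]; exact c_lt_om k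
      exact hab (h1.symm.trans (isolated_of_lt h3 hr'))
    · rw [h1, hk, c_le_c] at h2
      omega
  rcases cases3 p.t with ⟨k, hk⟩ | hk
  · exact ⟨_, key hk hpq⟩
  rcases cases3 q.t with ⟨l, hl⟩ | hl
  · exact ⟨_, (key hl hpq.symm).symm⟩
  by_cases hD : p.D = q.D
  · -- the marks differ
    have hne : p.t ≠ q.t := fun h => hpq (P.ext hD h)
    have key2 : ∀ {a b : P}, a.D = b.D → a.t = om → b.t = ⊤ → Disjoint (BY a 0) (BY b 0) := by
      intro a b hab ha hb
      rw [Set.disjoint_left]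
      intro r hr hr'
      have h1 := hr'.2.1 hb
      have haf : a.D.Finite := hab ▸ b.fin hb
      rcases hr.2.2.2.1 ha haf with e | e
      · exact om_ne_top (e.1.symm.trans h1)
      · rw [h1] at e
        exact absurd e.2 om_lt_top.not_gt
    rcases hk with hk | hk <;> rcases hl with hl | hl
    · exact absurd (hk.trans hl.symm) hne
    · exact ⟨0, key2 hD hk hl⟩
    · exact ⟨0, (key2 hD.symm hl hk).symm⟩
    · exact absurd (hk.trans hl.symm) hne
  · obtain ⟨n, hn⟩ : ∃ n, ¬ (n ∈ p.D ↔ n ∈ q.D) := by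
      by_contra hcon
      push Not at hcon
      exact hD (Set.ext hcon)
    refine ⟨n + 1, ?_⟩
    rw [Set.disjoint_left]
    intro r hr hr'
    exact hn ((hr.1 n (Nat.lt_succ_self n)).trans (hr'.1 n (Nat.lt_succ_self n)).symm)

instance t2P : T2Space P := baseY.t2 t2Y

/-! ## The `s`-complete semilattice -/

/-- The semilattice: all elements of `P` but the identity. -/
@[ext]
structure Q where
  /-- the element of `P` -/
  val : P
  ne : val ≠ one

theorem mul_ne_one {p q : P} (h : p ≠ one) : p * q ≠ one := by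
  intro hpq
  apply h
  have h1 : min p.t q.t = ⊤ := congrArg P.t hpq
  have h2 : p.t = ⊤ := top_le_iff.1 (h1 ▸ min_le_left _ _)
  have h3 : q.t = ⊤ := top_le_iff.1 (h1 ▸ min_le_right _ _)
  apply P.ext
  · ext n
    refine ⟨fun hn => ?_, fun hn => absurd hn (notMem_empty _)⟩
    have h4 : n ∈ (p * q).D := ⟨Or.inl hn, p.lt n hn, h3 ▸ (h2 ▸ p.lt n hn)⟩
    rw [hpq] at h4
    exact h4
  · exact h2

instance : Mul Q := ⟨fun p q => ⟨p.val * q.val, mul_ne_one p.ne⟩⟩

theorem val_mul (p q : Q) : (p * q).val = p.val * q.val := rfl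

/-- The natural order as a partial order. -/
instance : PartialOrder Q where
  le p q := p * q = p
  le_refl p := Q.ext (P.mul_self' _)
  le_trans p q r h1 h2 := by
    have e1 : p.val * q.val = p.val := congrArg Q.val h1
    have e2 : q.val * r.val = q.val := congrArg Q.val h2
    apply Q.ext
    rw [val_mul]
    calc p.val * r.val = p.val * q.val * r.val := by rw [e1]
      _ = p.val * (q.val * r.val) := P.mul_assoc' _ _ _
      _ = p.val := by rw [e2, e1]
  le_antisymm p q h1 h2 := by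
    have e1 : p.val * q.val = p.val := congrArg Q.val h1
    have e2 : q.val * p.val = q.val := congrArg Q.val h2
    apply Q.ext
    exact e1.symm.trans ((P.mul_comm' _ _).trans e2)

theorem le_def {p q : Q} : p ≤ q ↔ p * q = p := Iff.rfl

theorem le_iff {p q : Q} : p ≤ q ↔
    p.val.t ≤ q.val.t ∧ ∀ n ∈ q.val.D, c n < p.val.t → n ∈ p.val.D := by
  rw [← mul_eq_left]
  exact ⟨fun h => congrArg Q.val h, fun h => Q.ext h⟩

/-- The neighbourhoods. -/
def BX (p : Q) (N : ℕ) : Set Q := {q | (p.val.t = ⊤ → q = p) ∧ (p.val.t < om → q = p) ∧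
  (p.val.t = om → p.val.D.Infinite →
    c N ≤ q.val.t ∧ q.val.D ⊆ p.val.D ∧ ∀ n ∈ p.val.D, n < N → n ∈ q.val.D) ∧
  (p.val.t = om → p.val.D.Finite →
    q = p ∨ (c N ≤ q.val.t ∧ q.val.t < om ∧ q.val.D = p.val.D))}

theorem bX_self (p : Q) (N : ℕ) : p ∈ BX p N := by
  refine ⟨fun _ => rfl, fun _ => rfl, fun h _ => ⟨?_, Subset.rfl, fun n hn _ => hn⟩,
    fun _ _ => Or.inl rfl⟩
  rw [h]
  exact (c_lt_om N).le

theorem bX_anti (p : Q) (M N : ℕ) (h : M ≤ N) : BX p N ⊆ BX p M := by
  rintro q ⟨h1, h2, h3, h4⟩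
  have hc : c M ≤ c N := c_le_c.2 h
  exact ⟨h1, h2, fun a b => ⟨hc.trans (h3 a b).1, (h3 a b).2.1,
    fun n hn hnM => (h3 a b).2.2 n hn (hnM.trans_le h)⟩,
    fun a b => (h4 a b).imp_right fun e => ⟨hc.trans e.1, e.2⟩⟩

theorem bX_open (p : Q) (N : ℕ) (q : Q) (hq : q ∈ BX p N) : ∃ N', BX q N' ⊆ BX p N := by
  obtain ⟨h1, h2, h3, h4⟩ := id hq
  rcases cases3 q.val.t with ⟨k, hk⟩ | hk | hk
  · refine ⟨0, fun r hr => ?_⟩
    rw [hr.2.1 (hk ▸ c_lt_om k)]
    exact hq
  · refine ⟨N, ?_⟩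
    rintro r ⟨g1, g2, g3, g4⟩
    refine ⟨fun a => ?_, fun a => ?_, fun a b => ?_, fun a b => ?_⟩
    · have := h1 a
      rw [this] at hk
      exact absurd (hk.symm.trans a) om_ne_top
    · have := h2 a
      rw [this] at hk
      exact absurd a (hk ▸ lt_irrefl _)
    · obtain ⟨e1, e2, e3⟩ := h3 a b
      rcases Set.finite_or_infinite q.val.D with hf | hf
      · rcases g4 hk hf with e | e
        · rw [e]; exact ⟨e1, e2, e3⟩
        · exact ⟨e.1, e.2.2 ▸ e2, fun n hn hnN => e.2.2 ▸ e3 n hn hnN⟩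
      · obtain ⟨f1, f2, f3⟩ := g3 hk hf
        exact ⟨f1, f2.trans e2, fun n hn hnN => f3 n (e3 n hn hnN) hnN⟩
    · rcases h4 a b with e | e
      · subst e
        exact g4 hk b
      · exact absurd e.2.1 (hk ▸ lt_irrefl _)
  · refine ⟨0, fun r hr => ?_⟩
    rw [hr.1 hk]
    exact hq

/-- The neighbourhood system. -/
def baseX : Base Q := ⟨BX, bX_self, bX_anti, bX_open⟩

instance topQ : TopologicalSpace Q := baseX.top

theorem bX_sub {q q' : Q} {N : ℕ} (h : q' ∈ BX q N) : q'.val ∈ BY q.val N := by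
  obtain ⟨h1, h2, h3, h4⟩ := h
  rcases cases3 q.val.t with ⟨k, hk⟩ | hk | hk
  · rw [h2 (hk ▸ c_lt_om k)]
    exact bY_self _ _
  · rcases Set.finite_or_infinite q.val.D with hf | hf
    · rcases h4 hk hf with e | e
      · rw [e]; exact bY_self _ _
      · refine ⟨fun n _ => by rw [e.2.2], fun a => ?_, fun _ a => absurd hf a, fun _ _ => ?_,
          fun a => ?_⟩
        · exact absurd (hk.symm.trans a) om_ne_top
        · exact Or.inr ⟨e.1, e.2.1⟩
        · exact absurd a (hk ▸ lt_irrefl _)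
    · obtain ⟨e1, e2, e3⟩ := h3 hk hf
      refine ⟨fun n hn => ⟨fun a => e3 n a hn, fun a => e2 a⟩, fun a => ?_, fun _ _ => e1,
        fun _ a => absurd a hf, fun a => ?_⟩
      · exact absurd (hk.symm.trans a) om_ne_top
      · exact absurd a (hk ▸ lt_irrefl _)
  · rw [h1 hk]
    exact bY_self _ _

theorem bX_subset {q q' : Q} {N : ℕ} (h : q' ∈ BX q N) : q'.val.D ⊆ q.val.D := by
  obtain ⟨h1, h2, h3, h4⟩ := h
  rcases cases3 q.val.t with ⟨k, hk⟩ | hk | hk
  · rw [h2 (hk ▸ c_lt_om k)]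
  · rcases Set.finite_or_infinite q.val.D with hf | hf
    · rcases h4 hk hf with e | e
      · rw [e]
      · rw [e.2.2]
    · exact (h3 hk hf).2.1
  · rw [h1 hk]

theorem continuous_val : Continuous Q.val := by
  refine ⟨fun U hU p hp => ?_⟩
  obtain ⟨N, hN⟩ := hU p.val hp
  exact ⟨N, fun q hq => hN (bX_sub hq)⟩

theorem injective_val : Function.Injective Q.val := fun _ _ h => Q.ext h

instance t2Q : T2Space Q := T2Space.of_injective_continuous injective_val continuous_val

theorem exists_bound {A : Set ℕ} (hA : A.Finite) : ∃ N, ∀ n ∈ A, n < N := by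
  obtain ⟨B, hB⟩ := hA.bddAbove
  exact ⟨B + 1, fun n hn => Nat.lt_succ_of_le (hB hn)⟩

theorem exists_bound' (A : Set ℕ) : ∃ N, A.Finite → ∀ n ∈ A, n < N := by
  rcases Set.finite_or_infinite A with h | h
  · obtain ⟨N, hN⟩ := exists_bound h
    exact ⟨N, fun _ => hN⟩
  · exact ⟨0, fun h' => absurd h' h⟩

theorem contX (p q : Q) (M : ℕ) :
    ∃ N, ∀ p' ∈ BX p N, ∀ q' ∈ BX q N, p' * q' ∈ BX (p * q) M := by
  rcases cases3 p.val.t with ⟨k, hk⟩ | hk
  · refine ⟨k + 1, fun p' hp' q' hq' => ?_⟩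
    have h1 : p' * q' = p * q := by
      apply Q.ext
      rw [val_mul, hp'.2.1 (hk ▸ c_lt_om k), val_mul, mul_const hk (Nat.lt_succ_self k)
        (bX_sub hq').1 (mark_cases (bX_sub hq'))]
    rw [h1]
    exact bX_self _ _
  rcases cases3 q.val.t with ⟨l, hl⟩ | hl
  · refine ⟨l + 1, fun p' hp' q' hq' => ?_⟩
    have h1 : p' * q' = p * q := by
      apply Q.ext
      rw [val_mul, hq'.2.1 (hl ▸ c_lt_om l), val_mul, P.mul_comm' p'.val, P.mul_comm' p.val,
        mul_const hl (Nat.lt_succ_self l) (bX_sub hp').1 (mark_cases (bX_sub hp'))]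
    rw [h1]
    exact bX_self _ _
  have hpo : om ≤ p.val.t := by
    rcases hk with h | h
    · rw [h]
    · rw [h]; exact le_top
  have hqo : om ≤ q.val.t := by
    rcases hl with h | h
    · rw [h]
    · rw [h]; exact le_top
  obtain ⟨Np, hNp⟩ := exists_bound' p.val.D
  obtain ⟨Nq, hNq⟩ := exists_bound' q.val.D
  refine ⟨max M (max Np Nq), fun p' hp' q' hq' => ?_⟩
  set N := max M (max Np Nq) with hN
  have hMN : M ≤ N := le_max_left _ _
  have hp1 : c N ≤ p'.val.t := by
    rcases mark_cases (bX_sub hp') with h | h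
    · rw [h]; exact (c_lt_om N).le.trans hpo
    · exact h.1
  have hq1 : c N ≤ q'.val.t := by
    rcases mark_cases (bX_sub hq') with h | h
    · rw [h]; exact (c_lt_om N).le.trans hqo
    · exact h.1
  have hc : c M ≤ c N := c_le_c.2 hMN
  refine ⟨fun h => ?_, fun h => ?_, fun h hi => ⟨?_, ?_, ?_⟩, fun h hf => ?_⟩
  · rw [val_mul, mul_t] at h
    have h1 : p.val.t = ⊤ := top_le_iff.1 (h ▸ min_le_left _ _)
    have h2 : q.val.t = ⊤ := top_le_iff.1 (h ▸ min_le_right _ _)
    rw [hp'.1 h1, hq'.1 h2]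
  · exact absurd h (not_lt.2 (le_min hpo hqo))
  · exact hc.trans (le_min hp1 hq1)
  · rw [val_mul, val_mul, mul_D_of_le hpo hqo]
    intro n hn
    exact hn.1.imp (fun e => bX_subset hp' e) (fun e => bX_subset hq' e)
  · intro n hn hnM
    have hnN : n < N := hnM.trans_le hMN
    have h1 := (bX_sub hp').1 n hnN
    have h2 := (bX_sub hq').1 n hnN
    exact ⟨hn.1.imp h1.1 h2.1, c_lt_of_c_le hnN hp1, c_lt_of_c_le hnN hq1⟩
  · rw [val_mul, mul_D_of_le hpo hqo, Set.finite_union] at hf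
    have key : ∀ {a a' : Q}, a.val.D.Finite → (a.val.t = om ∨ a.val.t = ⊤) → a' ∈ BX a N →
        a' = a ∨ (a'.val.t < om ∧ a'.val.D = a.val.D) := by
      intro a a' haf hat ha'
      rcases hat with hat | hat
      · rcases ha'.2.2.2 hat haf with e | e
        · exact Or.inl e
        · exact Or.inr e.2
      · exact Or.inl (ha'.1 hat)
    have hlt : ∀ n, n ∈ p.val.D ∨ n ∈ q.val.D → n < N := by
      rintro n (hn | hn)
      · exact (hNp hf.1 n hn).trans_le ((le_max_left _ _).trans (le_max_right _ _))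
      · exact (hNq hf.2 n hn).trans_le ((le_max_right _ _).trans (le_max_right _ _))
    have hD : ∀ a b : Set ℕ, a = p.val.D → b = q.val.D →
        {n | (n ∈ a ∨ n ∈ b) ∧ c n < p'.val.t ∧ c n < q'.val.t} = p.val.D ∪ q.val.D := by
      rintro a b rfl rfl
      ext n
      constructor
      · exact fun h => h.1
      · intro h
        exact ⟨h, c_lt_of_c_le (hlt n h) hp1, c_lt_of_c_le (hlt n h) hq1⟩
    rcases key hf.1 hk hp' with e1 | e1
    · rcases key hf.2 hl hq' with e2 | e2
      · left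
        rw [e1, e2]
      · right
        refine ⟨hc.trans (le_min hp1 hq1), (min_le_right _ _).trans_lt e2.1, ?_⟩
        rw [val_mul p q, mul_D_of_le hpo hqo]
        exact hD _ _ (by rw [e1]) e2.2
    · right
      refine ⟨hc.trans (le_min hp1 hq1), (min_le_left _ _).trans_lt e1.1, ?_⟩
      rw [val_mul p q, mul_D_of_le hpo hqo]
      refine hD _ _ e1.2 ?_
      rcases key hf.2 hl hq' with e2 | e2
      · rw [e2]
      · exact e2.2

instance contMulQ : ContinuousMul Q := baseX.continuous_mul contX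

/-! ### Regularity -/

theorem isClosed_bX (p : Q) (N : ℕ) : IsClosed (BX p N) := by
  rcases cases3 p.val.t with ⟨k, hk⟩ | hk | hk
  · have h1 : BX p N = {p} := by
      ext q
      refine ⟨fun h => h.2.1 (hk ▸ c_lt_om k), ?_⟩
      rintro rfl
      exact bX_self _ _
    rw [h1]
    exact isClosed_singleton
  · rw [← isOpen_compl_iff]
    intro q hq
    rcases Set.finite_or_infinite p.val.D with hf | hf
    · -- `p = (F, ω)` with `F` finite
      rcases cases3 q.val.t with ⟨l, hl⟩ | hl | hl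
      · refine ⟨0, fun r hr => ?_⟩
        rw [hr.2.1 (hl ▸ c_lt_om l)]
        exact hq
      · have hne : q.val.D ≠ p.val.D := by
          intro h
          apply hq
          rw [show q = p from Q.ext (P.ext h (hl.trans hk.symm))]
          exact bX_self _ _
        have hmem : ∀ r ∈ BX p N, r.val.D = p.val.D := by
          intro r hr
          rcases hr.2.2.2 hk hf with e | e
          · rw [e]
          · exact e.2.2
        rcases Set.finite_or_infinite q.val.D with hg | hg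
        · refine ⟨0, fun r hr hr' => ?_⟩
          rcases hr.2.2.2 hl hg with e | e
          · exact hq (e ▸ hr')
          · exact hne (e.2.2.symm.trans (hmem r hr'))
        · obtain ⟨b, hb, hbp⟩ : ∃ b ∈ q.val.D, b ∉ p.val.D := by
            by_contra hcon
            push Not at hcon
            exact hg (hf.subset hcon)
          refine ⟨b + 1, fun r hr hr' => ?_⟩
          have h1 := (hr.2.2.1 hl hg).2.2 b hb (Nat.lt_succ_self b)
          rw [hmem r hr'] at h1
          exact hbp h1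
      · refine ⟨0, fun r hr => ?_⟩
        rw [hr.1 hl]
        exact hq
    · -- `p = (A, ω)` with `A` infinite
      have hmem : ∀ r, r ∈ BX p N ↔ (c N ≤ r.val.t ∧ r.val.D ⊆ p.val.D ∧
          ∀ n ∈ p.val.D, n < N → n ∈ r.val.D) := by
        intro r
        refine ⟨fun hr => hr.2.2.1 hk hf, fun hr => ⟨fun a => ?_, fun a => ?_, fun _ _ => hr,
          fun _ a => absurd a hf⟩⟩
        · exact absurd (hk.symm.trans a) om_ne_top
        · exact absurd a (hk ▸ lt_irrefl _)
      rcases cases3 q.val.t with ⟨l, hl⟩ | hl | hl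
      · refine ⟨0, fun r hr => ?_⟩
        rw [hr.2.1 (hl ▸ c_lt_om l)]
        exact hq
      · have hq' : ¬ (q.val.D ⊆ p.val.D ∧ ∀ n ∈ p.val.D, n < N → n ∈ q.val.D) := by
          intro h
          exact hq ((hmem q).2 ⟨hl ▸ (c_lt_om N).le, h⟩)
        rw [not_and_or] at hq'
        rcases hq' with hq' | hq'
        · obtain ⟨b, hb, hbp⟩ := Set.not_subset.1 hq'
          refine ⟨b + 1, fun r hr hr' => hbp (((hmem r).1 hr').2.1 ?_)⟩
          exact ((bX_sub hr).1 b (Nat.lt_succ_self b)).1 hb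
        · push Not at hq'
          obtain ⟨n, hn, hnN, hnq⟩ := hq'
          refine ⟨0, fun r hr hr' => hnq (bX_subset hr (((hmem r).1 hr').2.2 n hn hnN))⟩
      · refine ⟨0, fun r hr => ?_⟩
        rw [hr.1 hl]
        exact hq
  · have h1 : BX p N = {p} := by
      ext q
      refine ⟨fun h => h.1 hk, ?_⟩
      rintro rfl
      exact bX_self _ _
    rw [h1]
    exact isClosed_singleton

instance regularQ : RegularSpace Q := by
  apply RegularSpace.of_exists_mem_nhds_isClosed_subset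
  intro p U hU
  obtain ⟨N, hN⟩ := (baseX.mem_nhds p U).1 hU
  exact ⟨BX p N, (baseX.mem_nhds p _).2 ⟨N, Subset.rfl⟩, isClosed_bX p N, hN⟩

theorem mem_closure_iff' {A : Set Q} {m : Q} : m ∈ closure A ↔ ∀ N, (BX m N ∩ A).Nonempty := by
  rw [mem_closure_iff_nhds]
  constructor
  · intro h N
    exact h _ ((baseX.mem_nhds m _).2 ⟨N, Subset.rfl⟩)
  · intro h U hU
    obtain ⟨N, hN⟩ := (baseX.mem_nhds m U).1 hU
    exact (h N).mono (inter_subset_inter_left _ hN)

/-! ### Infima -/

theorem ne_one_of_t {p : P} (h : p.t ≠ ⊤) : p ≠ one := by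
  rintro rfl
  exact h rfl

theorem exists_inf (S : Set Q) (hne : S.Nonempty) (hS : IsSub S) :
    ∃ m, IsInf S m ∧ m ∈ closure (up S) := by
  classical
  obtain ⟨t₀, ⟨p₀, hp₀, rfl⟩, hmin⟩ := WellFounded.has_min (wellFounded_lt (α := Mark))
    ((fun p : Q => p.val.t) '' S) (hne.image _)
  have hmin' : ∀ p ∈ S, p₀.val.t ≤ p.val.t := fun p hp => not_lt.1 (hmin _ ⟨p, hp, rfl⟩)
  have hdir : ∀ E : Finset ℕ, (∀ n ∈ E, c n < p₀.val.t ∧ ∃ p ∈ S, n ∈ p.val.D) →
      ∃ p ∈ S, p.val.t = p₀.val.t ∧ ∀ n ∈ E, n ∈ p.val.D := by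
    intro E
    induction E using Finset.induction_on with
    | empty => exact fun _ => ⟨p₀, hp₀, rfl, fun n hn => by simp at hn⟩
    | insert e E _ ih =>
      intro h
      obtain ⟨p, hp, hpt, hpE⟩ := ih fun n hn => h n (Finset.mem_insert_of_mem hn)
      obtain ⟨he, q, hq, heq⟩ := h e (Finset.mem_insert_self _ _)
      refine ⟨p * q, hS p hp q hq, ?_, fun n hn => ?_⟩
      · rw [val_mul, mul_t, hpt]
        exact min_eq_left (hmin' q hq)
      · have hn' : c n < p₀.val.t := (h n hn).1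
        refine ⟨?_, hpt ▸ hn', hn'.trans_le (hmin' q hq)⟩
        rcases Finset.mem_insert.1 hn with rfl | hn
        · exact Or.inr heq
        · exact Or.inl (hpE n hn)
  let DS : Set ℕ := {n | c n < p₀.val.t ∧ ∃ p ∈ S, n ∈ p.val.D}
  rcases Set.finite_or_infinite DS with hf | hf
  · obtain ⟨p, hp, hpt, hpE⟩ := hdir hf.toFinset fun n hn => hf.mem_toFinset.1 hn
    have hlow : ∀ a ∈ S, p ≤ a := by
      intro a ha
      rw [le_iff]
      refine ⟨hpt ▸ hmin' a ha, fun n hn hnt => hpE n (hf.mem_toFinset.2 ⟨hpt ▸ hnt, a, ha, hn⟩)⟩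
    refine ⟨p, ⟨fun a ha => hlow a ha, fun b hb => hb p hp⟩, subset_closure ⟨p, hp, ?_⟩⟩
    exact le_refl p
  · have hom : om ≤ p₀.val.t := by
      by_contra hlt
      obtain ⟨k, hk⟩ := lt_om_iff.1 (not_le.1 hlt)
      apply hf
      refine (finite_Iio k).subset fun n hn => ?_
      have h1 := hn.1
      rw [hk, c_lt_c] at h1
      exact h1
    let m' : P := ⟨DS, om, fun n _ => c_lt_om n, fun h => absurd h om_ne_top⟩
    let m : Q := ⟨m', ne_one_of_t om_ne_top⟩
    refine ⟨m, ⟨fun a ha => ?_, fun b hb => ?_⟩, mem_closure_iff'.2 fun N => ?_⟩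
    · change m ≤ a
      rw [le_iff]
      refine ⟨hom.trans (hmin' a ha), fun n hn _ => ⟨(c_lt_om n).trans_le hom, a, ha, hn⟩⟩
    · change b ≤ m
      have hb' : ∀ a ∈ S, b ≤ a := hb
      have hDS : ∀ n ∈ DS, c n < b.val.t → n ∈ b.val.D := by
        rintro n ⟨_, a, ha, hn⟩ hnt
        exact (le_iff.1 (hb' a ha)).2 n hn hnt
      rw [le_iff]
      refine ⟨?_, hDS⟩
      rcases cases3 b.val.t with ⟨k, hk⟩ | hk | hk
      · rw [hk]; exact (c_lt_om k).le
      · rw [hk]
      · exfalso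
        apply hf
        refine (b.val.fin hk).subset fun n hn => hDS n hn ?_
        rw [hk]
        exact (c_lt_om n).trans om_lt_top
    · obtain ⟨d, hd⟩ := hf.nonempty
      let E : Finset ℕ := (Finset.range (max N (d + 1))).filter (· ∈ DS)
      have hE : ∀ n, n ∈ E ↔ n < max N (d + 1) ∧ n ∈ DS := by
        intro n
        simp [E]
      obtain ⟨a, ha, hat, haE⟩ := hdir E fun n hn => ((hE n).1 hn).2
      let r' : P := ⟨(E : Set ℕ), p₀.val.t, fun n _ => (c_lt_om n).trans_le hom,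
        fun _ => E.finite_toSet⟩
      have hr' : r' ≠ one := by
        intro h
        have h1 : d ∈ r'.D := by
          change d ∈ (E : Set ℕ)
          rw [Finset.mem_coe, hE]
          exact ⟨lt_of_lt_of_le (Nat.lt_succ_self d) (le_max_right _ _), hd⟩
        rw [h] at h1
        exact h1
      let r : Q := ⟨r', hr'⟩
      refine ⟨r, ⟨fun h => absurd h om_ne_top, fun h => absurd h (lt_irrefl _), fun _ _ => ?_,
        fun _ h => absurd h hf⟩, ⟨a, ha, ?_⟩⟩
      · refine ⟨(c_lt_om N).le.trans hom, fun n hn => ?_, fun n hn hnN => ?_⟩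
        · exact ((hE n).1 (Finset.mem_coe.1 hn)).2
        · exact Finset.mem_coe.2 ((hE n).2 ⟨hnN.trans_le (le_max_left _ _), hn⟩)
      · change a ≤ r
        rw [le_iff]
        exact ⟨hat.le, fun n hn _ => haE n (Finset.mem_coe.1 hn)⟩

/-! ### Suprema -/

theorem max_of_finite {C T : Set Q} (hC : IsChn C) (hTC : T ⊆ C) (hT : T.Finite)
    (hne : T.Nonempty) (hup : ∀ p ∈ C, ∀ q ∈ T, q ≤ p → p ∈ T) :
    ∃ m ∈ C, ∀ p ∈ C, p ≤ m := by
  obtain ⟨m, hm⟩ := hT.exists_maximal hne
  have hm1 : m ∈ T := hm.1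
  refine ⟨m, hTC hm1, fun p hp => ?_⟩
  rcases hC p hp m (hTC hm1) with h | h
  · exact h
  · have h1 : m ≤ p := by
      rw [le_def]
      have h2 : p.val * m.val = m.val := congrArg Q.val h
      apply Q.ext
      rw [val_mul, P.mul_comm', h2]
    exact hm.2 (hup p hp m hm1 h1) h1

theorem finite_marks (k : ℕ) : {q : Q | q.val.t < c k}.Finite := by
  have hinj : Function.Injective (fun q : Q => (q.val.D, q.val.t)) := by
    intro p q h
    exact Q.ext (P.ext (congrArg Prod.fst h) (congrArg Prod.snd h))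
  refine Set.Finite.of_finite_image (f := fun q : Q => (q.val.D, q.val.t)) ?_ hinj.injOn
  refine (((finite_Iio k).powerset).prod ((finite_Iio k).image c)).subset ?_
  rintro _ ⟨q, hq, rfl⟩
  have hq' : q.val.t < c k := hq
  refine ⟨fun n hn => ?_, ?_⟩
  · exact c_lt_c.1 ((q.val.lt n hn).trans hq')
  · obtain ⟨l, hl⟩ := lt_om_iff.1 (hq'.trans (c_lt_om k))
    refine ⟨l, ?_, hl.symm⟩
    rw [hl, c_lt_c] at hq'
    exact hq'

theorem finite_top {p : Q} (hp : p.val.t = ⊤) : {q : Q | p ≤ q}.Finite := by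
  have hinj : Function.Injective (fun q : Q => (q.val.D, q.val.t)) := by
    intro p q h
    exact Q.ext (P.ext (congrArg Prod.fst h) (congrArg Prod.snd h))
  refine Set.Finite.of_finite_image (f := fun q : Q => (q.val.D, q.val.t)) ?_ hinj.injOn
  refine (((p.val.fin hp).powerset).prod (finite_singleton ⊤)).subset ?_
  rintro _ ⟨q, hq, rfl⟩
  obtain ⟨h1, h2⟩ := le_iff.1 hq
  rw [hp] at h1 h2
  refine ⟨fun n hn => h2 n hn ((c_lt_om n).trans om_lt_top), top_le_iff.1 h1⟩

theorem exists_sup (C : Set Q) (hne : C.Nonempty) (hC : IsChn C) :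
    ∃ m, IsSup C m ∧ m ∈ closure (down C) := by
  classical
  by_cases hmax : ∃ m ∈ C, ∀ p ∈ C, p ≤ m
  · obtain ⟨m, hm, hle⟩ := hmax
    exact ⟨m, ⟨fun a ha => hle a ha, fun b hb => hb m hm⟩, subset_closure ⟨m, hm, le_refl m⟩⟩
  · have htot : ∀ p ∈ C, ∀ q ∈ C, p ≤ q ∨ q ≤ p := by
      intro p hp q hq
      rcases hC p hp q hq with h | h
      · exact Or.inl h
      · right
        have h2 : p.val * q.val = q.val := congrArg Q.val h
        apply Q.ext
        rw [val_mul, P.mul_comm', h2]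
    have hntop : ∀ p ∈ C, p.val.t ≠ ⊤ := by
      intro p hp hpt
      refine hmax (max_of_finite hC (T := {q | q ∈ C ∧ p ≤ q}) (fun q hq => hq.1)
        ((finite_top hpt).subset fun q hq => hq.2) ⟨p, hp, le_refl p⟩ ?_)
      intro q hq r hr hrq
      exact ⟨hq, hr.2.trans hrq⟩
    have hunb : ∀ k : ℕ, ∃ p ∈ C, c k ≤ p.val.t := by
      intro k
      by_contra hcon
      push Not at hcon
      exact hmax (max_of_finite hC (T := C) Subset.rfl
        ((finite_marks k).subset fun q hq => hcon q hq) hne fun p hp _ _ _ => hp)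
    let A₀ : Set ℕ := {n | ∀ p ∈ C, c n < p.val.t → n ∈ p.val.D}
    let m' : P := ⟨A₀, om, fun n _ => c_lt_om n, fun h => absurd h om_ne_top⟩
    let m : Q := ⟨m', ne_one_of_t om_ne_top⟩
    refine ⟨m, ⟨fun a ha => ?_, fun b hb => ?_⟩, mem_closure_iff'.2 fun N => ?_⟩
    · change a ≤ m
      rw [le_iff]
      refine ⟨?_, fun n hn hnt => hn a ha hnt⟩
      rcases cases3 a.val.t with ⟨k, hk⟩ | hk | hk
      · rw [hk]; exact (c_lt_om k).le
      · rw [hk]
      · exact absurd hk (hntop a ha)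
    · change m ≤ b
      have hb' : ∀ a ∈ C, a ≤ b := hb
      rw [le_iff]
      refine ⟨?_, fun n hn _ p hp hnt => (le_iff.1 (hb' p hp)).2 n hn hnt⟩
      by_contra hlt
      obtain ⟨k, hk⟩ := lt_om_iff.1 (not_le.1 hlt)
      obtain ⟨p, hp, hkp⟩ := hunb (k + 1)
      have h1 := hkp.trans (le_iff.1 (hb' p hp)).1
      rw [hk, c_le_c] at h1
      omega
    · obtain ⟨K, hK⟩ := exists_bound' A₀
      let k := max N K
      have hind : ∀ j ≤ k, ∃ p ∈ C, c k ≤ p.val.t ∧ ∀ n < j, n ∉ A₀ → n ∉ p.val.D := by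
        intro j
        induction j with
        | zero =>
          intro _
          obtain ⟨p, hp, hpk⟩ := hunb k
          exact ⟨p, hp, hpk, fun n hn => absurd hn (Nat.not_lt_zero n)⟩
        | succ j ih =>
          intro hj
          obtain ⟨p, hp, hpk, hpj⟩ := ih (by omega)
          by_cases hjA : j ∈ A₀
          · refine ⟨p, hp, hpk, fun n hn hnA => ?_⟩
            rcases Nat.lt_succ_iff_lt_or_eq.1 hn with h | h
            · exact hpj n h hnA
            · exact absurd (h ▸ hjA) hnA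
          · have h1 : ∃ q ∈ C, c j < q.val.t ∧ j ∉ q.val.D := by
              by_contra hcon
              push Not at hcon
              exact hjA fun q hq hqt => hcon q hq hqt
            obtain ⟨q, hq, hqt, hjq⟩ := h1
            rcases htot p hp q hq with h | h
            · have h2 := le_iff.1 h
              refine ⟨q, hq, hpk.trans h2.1, fun n hn hnA hnq => ?_⟩
              rcases Nat.lt_succ_iff_lt_or_eq.1 hn with h3 | h3
              · exact hpj n h3 hnA (h2.2 n hnq (c_lt_of_c_le (by omega) hpk))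
              · exact hjq (h3 ▸ hnq)
            · have h2 := le_iff.1 h
              refine ⟨p, hp, hpk, fun n hn hnA hnp => ?_⟩
              rcases Nat.lt_succ_iff_lt_or_eq.1 hn with h3 | h3
              · exact hpj n h3 hnA hnp
              · subst h3
                exact hjq (h2.2 n hnp hqt)
      obtain ⟨p, hp, hpk, hpA⟩ := hind k le_rfl
      let r' : P := ⟨{n | n ∈ A₀ ∧ n < k}, c k, fun n hn => c_lt_c.2 hn.2,
        fun h => absurd h ((c_lt_om k).trans om_lt_top).ne⟩
      let r : Q := ⟨r', ne_one_of_t ((c_lt_om k).trans om_lt_top).ne⟩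
      have hNk : c N ≤ c k := c_le_c.2 (le_max_left _ _)
      refine ⟨r, ⟨fun h => absurd h om_ne_top, fun h => absurd h (lt_irrefl _), fun _ _ => ?_,
        fun _ hfin => Or.inr ⟨hNk, c_lt_om k, ?_⟩⟩, ⟨p, hp, ?_⟩⟩
      · exact ⟨hNk, fun n hn => hn.1, fun n hn hnN => ⟨hn, hnN.trans_le (le_max_left _ _)⟩⟩
      · ext n
        refine ⟨fun hn => hn.1, fun hn => ⟨hn, ?_⟩⟩
        exact (hK hfin n hn).trans_le (le_max_right _ _)
      · change r ≤ p
        rw [le_iff]
        refine ⟨hpk, fun n hn hnk => ?_⟩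
        have hnk' : n < k := c_lt_c.1 hnk
        refine ⟨?_, hnk'⟩
        by_contra hnA
        exact hpA n hnk' hnA hn

/-! ## The result -/

theorem not_closed : ¬ IsClosed (range Q.val) := by
  intro h
  have h1 : one ∈ (range Q.val)ᶜ := by
    rintro ⟨q, hq⟩
    exact q.ne hq
  obtain ⟨N, hN⟩ := h.isOpen_compl one h1
  let r : P := ⟨{N}, ⊤, fun n _ => (c_lt_om n).trans om_lt_top, fun _ => finite_singleton N⟩
  have hr : r ∈ BY one N := by
    refine ⟨fun n hn => ⟨fun h => absurd h (notMem_empty _), fun h => ?_⟩, fun _ => rfl,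
      fun h => absurd h.symm om_ne_top, fun h => absurd h.symm om_ne_top, fun h => ?_⟩
    · exact absurd (show n = N from h) hn.ne
    · exact absurd h om_lt_top.not_gt
  refine hN hr ⟨⟨r, ?_⟩, rfl⟩
  intro h
  have h2 : N ∈ r.D := rfl
  rw [h] at h2
  exact h2

/-- There is an `s`-complete regular Hausdorff topological semilattice which is not absolutely
`H`-closed. -/
theorem result : ∃ (X : Type) (_ : TopologicalSpace X) (_ : Mul X),
    IsTopSemilattice X ∧ T2Space X ∧ RegularSpace X ∧ SComplete X ∧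
      ¬ AbsolutelyHClosed.{0, 0} X := by
  refine ⟨Q, topQ, inferInstance, ⟨contMulQ.continuous_mul, fun x y z => Q.ext (P.mul_assoc' _ _ _),
    fun x y => Q.ext (P.mul_comm' _ _), fun x => Q.ext (P.mul_self' _)⟩, t2Q, regularQ,
    ⟨exists_inf, exists_sup⟩, fun h => ?_⟩
  exact not_closed (h P Q.val continuous_val val_mul)

end Pool.Agent.Results.MP_3bb15c_gt.NotAbsolutelyClosed
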